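import Pool.Agent.X83.DA.Stm

set_option autoImplicit false

namespace Pool.Agent.X176.DA.MEM

open MeasureTheory Set Filter Topology RealInnerProductSpace Pool.Agent.X83.DA

theorem t (H : Type*) [NormedAddCommGroup H] [InnerProductSpace ℝ H] [CompleteSpace H] :
    S_MEM H := by
  intro D A b c P G hA hF v s
  refine hA.max _ _ fun y => ?_
  have hP : ∀ x, Continuous fun t => P t x :=
    fun x => continuous_iff_continuousAt.2 fun t => (hF.dP x t).continuousAt
  have key : ∀ r, ⟪A y, P r (v : H)⟫ = ⟪(y : H), P r (A v)⟫ := by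
    intro r
    obtain ⟨h, e⟩ := hF.comP r v
    have := hA.sym y ⟨P r v, h⟩
    rw [e] at this
    exact this
  have hint : ∀ a x : H, ⟪a, ∫ r in (0 : ℝ)..s, (r * Real.exp (c * r / 2)) • P r x⟫ =
      ∫ r in (0 : ℝ)..s, (r * Real.exp (c * r / 2)) * ⟪a, P r x⟫ := by
    intro a x
    have hPx := hP x
    have hc : Continuous fun r : ℝ => (r * Real.exp (c * r / 2)) • P r x := by fun_prop
    have := (innerSL ℝ a).intervalIntegral_comp_comm (hc.intervalIntegrable (μ := volume) 0 s)
    simp only [innerSL_apply_apply, inner_smul_right] at this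
    exact this.symm
  unfold XX
  simp only [inner_add_right, inner_smul_right, hint, key]

end Pool.Agent.X176.DA.MEM
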